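import Pool.Agent.W498.Lift.Final

/-!
Regular `(n-1)`-forms need not lift to a log resolution of a globally F-regular variety of
dimension `n`, for every `n ≥ 2` and every prime `p`.

The example is `X = Spec k[s^p, s^(p-1) t, …, t^p, y_1, …, y_(n-2)]`, the cone over the rational
normal curve of degree `p` times an affine space, and `Y` is the blow-up of `X` along the vertex.
The form is `d log (s^p) ∧ dy_1 ∧ ⋯ ∧ dy_(n-2)`.
-/

set_option autoImplicit false

open AlgebraicGeometry CategoryTheory Pool.Agent.W498.Lift

universe u

namespace Pool.Agent.Results.MP_0afa72_ag.FRegularNoLift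

/-- For every algebraically closed field `k` of characteristic `p > 0` and every `n ≥ 2` there are
an affine normal variety `X = Spec R` over `k` of dimension `n` which is globally F-regular
(that is, `R` is strongly F-regular) and a log resolution `f : Y ⟶ X` of `(X, 0)` such that
regular `(n-1)`-forms on `X` do not lift to `Y`. -/
theorem result (p : ℕ) [Fact p.Prime] (k : Type u) [Field k] [IsAlgClosed k] [CharP k p]
    (n : ℕ) (hn : 2 ≤ n) :
    ∃ (R : Type u) (_ : CommRing R) (_ : IsDomain R) (_ : Algebra k R),
      Algebra.FiniteType k R ∧ IsIntegrallyClosed R ∧ IsStronglyFRegular p R ∧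
      ∃ (Y : Scheme.{u}) (_ : IsIntegral Y) (f : Y ⟶ Spec (CommRingCat.of R)),
        IsLogResolution n f (Spec.map (CommRingCat.ofHom (algebraMap k R))) ∧
        ¬ FormsLift (n - 1) f (Spec.map (CommRingCat.ofHom (algebraMap k R))) := by
  have hp : Fact p.Prime := inferInstance
  obtain ⟨r, rfl⟩ : ∃ r, n = r + 2 := ⟨n - 2, by omega⟩
  exact ⟨coneRing p r k, inferInstance, inferInstance, inferInstance,
    finiteType p r k hp.out.pos, inferInstance, coneRing_isStronglyFRegular p r k,
    resY p r k, resY_isIntegral p r k, resF p r k,
    resF_isLogResolution p r k hp.out.pos hp.out.two_le,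
    not_formsLift p r k hp.out.pos hp.out.two_le⟩

end Pool.Agent.Results.MP_0afa72_ag.FRegularNoLift
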